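import Pool.Agent.H8.BIG.Fin

/-!
# The condition on the images of hypersurfaces follows from irreducible hypersurfaces
-/

open MvPolynomial
open Pool.Agent.H12.ZD (pmap v O Res DenseOrbit NoInv)
open Pool.Agent.H18.HIT

namespace Pool.Agent.H8.BIG

section homog

variable {K σ : Type} [Field K]

/-- the polynomial `p (t X)` -/
noncomputable def tt : MvPolynomial σ K →ₐ[K] Polynomial (MvPolynomial σ K) :=
  aeval fun i => Polynomial.C (X i) * Polynomial.X

theorem tt_monomial (s : σ →₀ ℕ) (c : K) :
    tt (monomial s c) = Polynomial.C (monomial s c) * Polynomial.X ^ s.degree := by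
  unfold tt
  rw [aeval_monomial]
  have h1 : (algebraMap K (Polynomial (MvPolynomial σ K))) c = Polynomial.C (C c) := by
    rw [IsScalarTower.algebraMap_apply K (MvPolynomial σ K) (Polynomial (MvPolynomial σ K)),
      Polynomial.algebraMap_apply, Algebra.algebraMap_self, RingHom.id_apply,
      MvPolynomial.algebraMap_eq]
  rw [h1, Finsupp.prod]
  simp only [mul_pow, Finset.prod_mul_distrib, Finset.prod_pow_eq_pow_sum]
  rw [monomial_eq, Finsupp.prod, Polynomial.C_mul, map_prod]
  simp only [Polynomial.C_pow]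
  rw [mul_assoc]
  rfl

theorem coeff_tt (p : MvPolynomial σ K) (m : ℕ) :
    (tt p).coeff m = homogeneousComponent m p := by
  conv_lhs => rw [p.as_sum, map_sum]
  rw [Polynomial.finsetSum_coeff, homogeneousComponent_apply, Finset.sum_filter]
  refine Finset.sum_congr rfl fun s _ => ?_
  rw [tt_monomial, Polynomial.coeff_C_mul, Polynomial.coeff_X_pow]
  by_cases h : m = s.degree
  · rw [if_pos h, if_pos h.symm, mul_one]
  · rw [if_neg h, if_neg (Ne.symm h), mul_zero]

theorem tt_ne {p : MvPolynomial σ K} (hp : p ≠ 0) : tt p ≠ 0 := by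
  intro h
  apply hp
  rw [← sum_homogeneousComponent p]
  refine Finset.sum_eq_zero fun i _ => ?_
  rw [← coeff_tt, h, Polynomial.coeff_zero]

/-- divisors of forms are forms -/
theorem homog_mul {p q : MvPolynomial σ K} {a : ℕ} (hG : (p * q).IsHomogeneous a)
    (hp : p ≠ 0) (hq : q ≠ 0) :
    ∃ b c : ℕ, b + c = a ∧ p.IsHomogeneous b ∧ q.IsHomogeneous c := by
  have hG1 : tt (p * q) = Polynomial.C (p * q) * Polynomial.X ^ a := by
    ext1 m
    rw [coeff_tt, Polynomial.coeff_C_mul, Polynomial.coeff_X_pow,
      homogeneousComponent_of_mem ((mem_homogeneousSubmodule a _).2 hG)]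
    by_cases h : m = a
    · rw [if_pos h, if_pos h, mul_one]
    · rw [if_neg h, if_neg h, mul_zero]
  rw [map_mul] at hG1
  have h1 : (tt p).natDegree + (tt q).natDegree = a := by
    rw [← Polynomial.natDegree_mul (tt_ne hp) (tt_ne hq), hG1,
      Polynomial.natDegree_C_mul_X_pow _ _ (mul_ne_zero hp hq)]
  have h2 : (tt p).natTrailingDegree + (tt q).natTrailingDegree = a := by
    rw [← Polynomial.natTrailingDegree_mul (tt_ne hp) (tt_ne hq), hG1,
      Polynomial.natTrailingDegree_mul_X_pow (by
        rw [Ne, Polynomial.C_eq_zero]; exact mul_ne_zero hp hq), Polynomial.natTrailingDegree_C,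
      zero_add]
  have h3 := Polynomial.natTrailingDegree_le_natDegree (tt p)
  have h4 := Polynomial.natTrailingDegree_le_natDegree (tt q)
  have key : ∀ r : MvPolynomial σ K, (tt r).natTrailingDegree = (tt r).natDegree →
      r.IsHomogeneous (tt r).natDegree := by
    intro r hr
    have h5 : homogeneousComponent (tt r).natDegree r = r := by
      conv_rhs => rw [← sum_homogeneousComponent r]
      by_cases h0 : (tt r).natDegree ∈ Finset.range (r.totalDegree + 1)
      · rw [Finset.sum_eq_single_of_mem _ h0]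
        intro m _ hm
        rw [← coeff_tt]
        rcases lt_or_gt_of_ne hm with h | h
        · exact Polynomial.coeff_eq_zero_of_lt_natTrailingDegree (by omega)
        · exact Polynomial.coeff_eq_zero_of_natDegree_lt h
      · rw [Finset.mem_range, not_lt] at h0
        rw [homogeneousComponent_eq_zero _ _ (by omega)]
        symm
        refine Finset.sum_eq_zero fun m hm => ?_
        rw [Finset.mem_range] at hm
        rw [← coeff_tt]
        exact Polynomial.coeff_eq_zero_of_lt_natTrailingDegree (by omega)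
    rw [← h5]
    have := homogeneousComponent_isHomogeneous (tt r).natDegree r
    rwa [h5] at this ⊢
  exact ⟨_, _, h1, key p (by omega), key q (by omega)⟩

end homog

section irr

variable {N : ℕ} {k : Type} [Field k]

/-- the Nullstellensatz for an irreducible hypersurface -/
theorem dvd_of_zeros [IsAlgClosed k] {S q : Po N k} (hS : Irreducible S)
    (h : ∀ y : Fin N → k, eval y S = 0 → eval y q = 0) : S ∣ q := by
  have hrad : q ∈ (Ideal.span {S}).radical := by
    rw [← vanishingIdeal_zeroLocus_eq_radical (K := k), mem_vanishingIdeal_iff]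
    intro x hx
    rw [mem_zeroLocus_iff] at hx
    have h1 := hx S (Ideal.mem_span_singleton_self S)
    exact h x h1
  obtain ⟨M, hM⟩ := hrad
  exact hS.prime.dvd_of_dvd_pow (Ideal.mem_span_singleton.mp hM)

/-- homogeneous version -/
theorem kh_of_irr [IsAlgClosed k] (T : Tup N k) (m : ℕ)
    (h : ∀ (r : ℕ) (S : Po N k), S.IsHomogeneous r → Irreducible S →
      ∃ Q : Po N k, Q ≠ 0 ∧ Q.totalDegree ≤ m * r ∧
        ∀ y : Fin N → k, eval y S = 0 → eval (pmap T y) Q = 0) : KH T m := by
  intro r S
  induction S using UniqueFactorizationMonoid.induction_on_prime generalizing r with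
  | h₁ => exact fun _ h0 => absurd rfl h0
  | h₂ x hx =>
    intro _ _
    refine ⟨1, one_ne_zero, ?_, ?_⟩
    · rw [totalDegree_one]
      exact Nat.zero_le _
    · exact (hx.dvd : x ∣ _)
  | h₃ a p ha hp ih =>
    intro hr _
    obtain ⟨s, t, hst, hps, hat⟩ := homog_mul hr hp.ne_zero ha
    obtain ⟨Q₁, h1, h2, h3⟩ := h s p hps hp.irreducible
    obtain ⟨Q₂, h4, h5, h6⟩ := ih t hat ha
    refine ⟨Q₁ * Q₂, mul_ne_zero h1 h4, ?_, ?_⟩
    · refine (totalDegree_mul _ _).trans ?_
      rw [← hst, Nat.mul_add]
      exact Nat.add_le_add h2 h5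
    · rw [map_mul]
      refine mul_dvd_mul ?_ h6
      apply dvd_of_zeros hp.irreducible
      intro y hy
      rw [Pool.Agent.H18.HIT.eval_aeval]
      exact h3 y hy

/-- affine version -/
theorem kk_of_irr [IsAlgClosed k] (T : Tup N k) (m : ℕ)
    (h : ∀ S : Po N k, Irreducible S →
      ∃ Q : Po N k, Q ≠ 0 ∧ Q.totalDegree ≤ m * S.totalDegree ∧
        ∀ y : Fin N → k, eval y S = 0 → eval (pmap T y) Q = 0) : KK T m := by
  intro S
  induction S using UniqueFactorizationMonoid.induction_on_prime with
  | h₁ => exact fun h0 => absurd rfl h0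
  | h₂ x hx =>
    intro _
    refine ⟨1, one_ne_zero, ?_, ?_⟩
    · rw [totalDegree_one]
      exact Nat.zero_le _
    · exact (hx.dvd : x ∣ _)
  | h₃ a p ha hp ih =>
    intro _
    obtain ⟨Q₁, h1, h2, h3⟩ := h p hp.irreducible
    obtain ⟨Q₂, h4, h5, h6⟩ := ih ha
    refine ⟨Q₁ * Q₂, mul_ne_zero h1 h4, ?_, ?_⟩
    · refine (totalDegree_mul _ _).trans ?_
      rw [totalDegree_mul_of_isDomain hp.ne_zero ha, Nat.mul_add]
      exact Nat.add_le_add h2 h5
    · rw [map_mul]
      refine mul_dvd_mul ?_ h6
      apply dvd_of_zeros hp.irreducible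
      intro y hy
      rw [Pool.Agent.H18.HIT.eval_aeval]
      exact h3 y hy

end irr

end Pool.Agent.H8.BIG
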