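import Pool.Agent.H8.BIG.Fin
import Pool.Agent.H10.BIG.BA
import Pool.Agent.H16.BIG.FCL
import Pool.Agent.H21.BIG.CLS
import Pool.Agent.H21.BIG.LA
import Pool.Agent.H29.BIG.LNA
import Pool.Agent.H29.BIG.MUL
import Pool.Agent.H38.BIG.SP2
import Pool.Agent.H45.BIG.KKI
import Pool.Agent.H46.BIG.LNH
import Pool.Agent.H46.BIG.NRM
import Pool.Agent.H49.BIG.KSP
import Pool.Agent.H61.BIG.FIB
import Pool.Agent.H82.BIG.GEN

/-!
# Large topological degree: all the rows together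
-/

open MvPolynomial
open Pool.Agent.H12.ZD (pmap DenseOrbit NoInv)
open Pool.Agent.H18.HIT

namespace Pool.Agent.H8.BIG.All

theorem fcl : T_FCL := Pool.Agent.H16.BIG.pf_FCL
theorem la : T_LA := Pool.Agent.H21.BIG.pf_LA Pool.Agent.H48.HIT.pf_KER
theorem gen : T_GEN := Pool.Agent.H82.BIG.pf_GEN
theorem mul : T_MUL := Pool.Agent.H29.BIG.pf_MUL fcl la gen
theorem lna : T_LNA := Pool.Agent.H29.BIG.pf_LNA
theorem lnh : T_LNH := Pool.Agent.H46.BIG.pf_LNH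
theorem cls : T_CLS := Pool.Agent.H21.BIG.pf_CLS
theorem nrm : T_NRM := Pool.Agent.H46.BIG.pf_NRM
theorem fib : T_FIB := Pool.Agent.H61.BIG.pf_FIB
theorem kki : T_KKI := Pool.Agent.H45.BIG.pf_KKI.1
theorem kkc : T_KKC := Pool.Agent.H45.BIG.pf_KKI.2
theorem khi : T_KHI := pf_KHI
theorem ksp : T_KSP := Pool.Agent.H49.BIG.pf_KSP Pool.Agent.H48.HIT.pf_KER
theorem sp2 : T_SP2 := Pool.Agent.H38.BIG.pf_SP2 Pool.Agent.H48.HIT.pf_KER
theorem ba : T_BA := Pool.Agent.H10.BIG.pf_BA mul lna nrm fib kki kkc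
theorem bp : T_BP := pf_BP mul lnh cls nrm fib khi

end Pool.Agent.H8.BIG.All
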