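import Pool.Agent.H8.BIG.Core1

/-!
# Homogeneous maps of large topological degree
-/

open MvPolynomial
open Pool.Agent.H12.ZD (pmap v O Res DenseOrbit NoInv)
open Pool.Agent.H18.HIT Pool.Agent.H8.HIT
open Pool.Agent.H8.P2 (bas tot star natDegree_pos thd Lp Lm pmap_Lp Lp_Lm Lm_Lp Lp_ne Lm_ne lam_Lm
  Lm_lam iter_conj mem_vanT comp_conj aeval_conj prime_conj star_conj tot_conj cone comp_Lm_Lp)

namespace Pool.Agent.H8.BIG

/-- exponential growth -/
theorem num_contra {A m k r : ℕ} (hk : 1 ≤ k) (hm : m < A) :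
    ∃ i : ℕ, 1 ≤ i ∧ r * m ^ (k * i) < A ^ (k * i) := by
  rcases Nat.eq_zero_or_pos m with h0 | h0
  · subst h0
    refine ⟨1, le_rfl, ?_⟩
    rw [zero_pow (by omega), mul_zero]
    exact pow_pos hm _
  · refine ⟨r * m + 1, by omega, ?_⟩
    set j := k * (r * m + 1) with hj
    have hj1 : r * m + 1 ≤ j := Nat.le_mul_of_pos_left _ hk
    have h1 : (m + 1) ^ j ≤ A ^ j := Nat.pow_le_pow_left hm j
    refine lt_of_lt_of_le ?_ h1
    -- (m+1)^j ≥ m^j + j m^(j-1)
    have h2 : ∀ l : ℕ, m * m ^ l + l * m ^ l ≤ m * (m + 1) ^ l := by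
      intro l
      induction l with
      | zero => simp
      | succ l ih =>
        have h3 : m * (m + 1) ^ (l + 1) = (m * (m + 1) ^ l) * (m + 1) := by ring
        rw [h3]
        have h4 := Nat.mul_le_mul_right (m + 1) ih
        refine le_trans ?_ h4
        have h5 : m ^ (l + 1) = m * m ^ l := by ring
        rw [h5]
        nlinarith [Nat.zero_le (m ^ l), Nat.zero_le (l * m ^ l)]
    have h3 := h2 j
    have h4 : m * (r * m ^ j) < m * (m + 1) ^ j := by
      refine lt_of_lt_of_le ?_ h3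
      have h5 : 0 < m ^ j := pow_pos h0 j
      nlinarith
    exact lt_of_mul_lt_mul_left h4 (Nat.zero_le m)

theorem iterate_map_eq {N : ℕ} {k : Type} [Field k] {T G L : Tup N k}
    (h : comp T L = comp L G) (n : ℕ) : comp (it T n) L = comp L (it G n) := by
  induction n with
  | zero => rw [it_zero, it_zero, X_comp, comp_X]
  | succ n ih => rw [it_succ, comp_assoc, ih, ← comp_assoc, h, comp_assoc, ← it_succ]

theorem jac_X {N : ℕ} {k : Type} [Field k] : jac (fun i => (X i : Po N k)) = 1 := by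
  have h8 : Matrix.of (fun i j => pderiv j (X i : Po N k)) = 1 := by
    ext1 i j
    rw [Matrix.of_apply, pderiv_X, Pi.single_apply, Matrix.one_apply]
  rw [jac, h8, Matrix.det_one]

/-- the jacobian determinant of a conjugate map -/
theorem jac_conj_ne {N : ℕ} {k : Type} [Field k] {T G L L' : Tup N k}
    (hL : comp L' L = fun i => X i) (h : comp T L = comp L G) {x : Fin N → k}
    (hx : eval x (jac G) ≠ 0) : eval (pmap L x) (jac T) ≠ 0 := by
  have h1 := (Pool.Agent.H8.HIT.pf_CHN N k T L).2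
  have h2 := (Pool.Agent.H8.HIT.pf_CHN N k L G).2
  have hLne : ∀ y : Fin N → k, eval y (jac L) ≠ 0 := by
    intro y h0
    have h3 := (Pool.Agent.H8.HIT.pf_CHN N k L' L).2
    rw [hL, jac_X] at h3
    have h4 := congrArg (eval y) h3
    rw [map_one, map_mul, h0, mul_zero] at h4
    exact one_ne_zero h4
  rw [h, h2] at h1
  have h3 := congrArg (eval x) h1
  rw [map_mul, map_mul, Pool.Agent.H18.HIT.eval_aeval, Pool.Agent.H18.HIT.eval_aeval] at h3
  intro h0
  rw [h0, zero_mul] at h3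
  exact mul_ne_zero (hLne _) hx h3

theorem pf_BP (hMUL : T_MUL) (hLNH : T_LNH) (hCLS : T_CLS) (hNRM : T_NRM) (hFIB : T_FIB)
    (hKHI : T_KHI) : T_BP := by
  classical
  intro N F b d e n m hd hF hcov hn hKH hlt hb
  have he : 1 ≤ e := by
    rcases Nat.eq_zero_or_pos e with h | h
    · rw [h, zero_pow (by omega)] at hlt
      exact absurd hlt (Nat.not_lt_zero _)
    · exact h
  have hde : 1 ≤ d * e := Nat.mul_pos (by omega) he
  obtain ⟨p, k, a, H, hp, hk, hcovG, hinj, hdegG, hconj, hav⟩ := setup F (b * X 0) (d * e) hde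
    hcov (mul_ne_zero hb (X_ne_zero 0))
  have hconjT : ∀ z, pmap (it F k) (lam p a z) = lam p a (pmap (flQ p H) z) := by
    intro z
    rw [pmap_it]
    exact hconj z
  have hT : ∀ i, (it F k i).IsHomogeneous (d ^ k) := it_hom hF k
  have hD : 2 ≤ d ^ k := hd.trans (Nat.le_self_pow (by omega) d)
  obtain ⟨θ, Φ, Δ, R, hprim⟩ := All.pel (N + 1) Qb (flQ p H) hinj
  have hE0 := All.cvp (N + 1) Qb (flQ p H) ((d * e) ^ k) θ Φ Δ R hinj hcovG hprim
  obtain ⟨cG, hcG0, hcG⟩ := All.cve (N + 1) Qb (flQ p H) θ Φ Δ R hinj hprim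
  obtain ⟨z, P, hz, hzΔ, hP, hPvan, hgal, hI⟩ := core1 p hp H hinj hprim cG hcG0
  set I := van (flQ p H) (cO z) with hIdef
  set y := lam p a (cO z) with hy
  have hne0 : ∀ n : ℕ, (pmap F)^[n] y ≠ 0 := by
    intro n h0
    have h1 := hav n z
    rw [← hy, h0, map_mul, eval_X] at h1
    exact right_ne_zero_of_mul h1 rfl
  refine ⟨y, fun n => ?_, ?_⟩
  · have h1 := hav n z
    rw [map_mul] at h1
    exact left_ne_zero_of_mul h1
  apply dense_of_conj F p k a H hconj
  by_contra hne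
  have hprimeI : I.IsPrime := All.prm (N + 1) p H z hp
  have hstable : ∀ c ∈ I, aeval (flQ p H) c ∈ I := fun c hc => van_aeval hc
  have hnot : ∀ q : Po (N + 1) Qb, eval (cO z) q ≠ 0 → q ∉ I := fun q hq h0 => hq (h0 0)
  have hΔI : Δ ∉ I := hnot Δ hzΔ
  have hΔG : aeval (flQ p H) Δ ∉ I := fun h => hΔI (star hprim hI h)
  have hjI : jac (flQ p H) ∉ I := hnot _ (jac_fl_ne p H z)
  have hq0 : Δ * jac (flQ p H) ∉ I := by
    intro h
    rcases hprimeI.mem_or_mem h with h | h
    · exact hΔI h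
    · exact hjI h
  -- the homogeneous element
  have hprimeT := prime_conj hconjT hprimeI
  have hstarT := star_conj hconjT (fun q hq => star hprim hI hq)
  have htotT := tot_conj hconjT (z := cO z) (Δ := Δ)
    (fun w hw hΔ q hq => tot hprim hI hw hΔ hq)
  have hΔT : aeval (Lm p a) Δ ∉ van (it F k) y := by
    rw [hy, mem_vanT hconjT, Lp_Lm]
    exact hΔI
  obtain ⟨S₀, hS₀, hS₀0⟩ := Submodule.exists_mem_ne_zero_of_ne_bot hne
  have hS₁ : aeval (Lm p a) S₀ ∈ van (it F k) y := by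
    rw [hy, mem_vanT hconjT, Lp_Lm]
    exact hS₀
  have hS₁0 := Lm_ne p a hS₀0
  set r := (aeval (Lm p a) S₀).totalDegree with hr
  set S := homogeneousComponent r (aeval (Lm p a) S₀) with hS
  have hSh : S.IsHomogeneous r := homogeneousComponent_isHomogeneous _ _
  have hS0 : S ≠ 0 := Pool.Agent.H55.HIT.hc_top_ne hS₁0
  have hST : S ∈ van (it F k) y := cone hD hT hprimeT hstarT hΔT htotT hS₁ r
  have hSI : aeval (Lp p a) S ∈ I := by
    rw [hy, mem_vanT hconjT] at hST
    exact hST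
  have hr1 : 1 ≤ r := by
    by_contra h
    have h0 : r = 0 := by omega
    rw [h0] at hSh
    have h1 : S = C (coeff 0 S) := totalDegree_eq_zero_iff_eq_C.mp
      (Nat.le_zero.mp hSh.totalDegree_le)
    have h2 := hST 0
    rw [Function.iterate_zero, id, h1, eval_C] at h2
    apply hS0
    rw [h1, h2, C_0]
  -- the exponent
  obtain ⟨i, hi1, hi⟩ := num_contra (A := e ^ n) (m := m) (k := k) (r := r) hk hlt
  obtain ⟨c, hcI, hc⟩ := hFIB (N + 1) Qb (flQ p H) I Φ.natDegree cG (Δ * jac (flQ p H)) hprimeI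
    (hNRM (N + 1) Qb (flQ p H) θ Φ Δ R I hprim hprimeI hstable hΔG hI) (hnot cG hz) hcG hq0
    (n * i)
  obtain ⟨m', hm'⟩ : ∃ m', eval ((pmap (flQ p H))^[m'] (cO z)) c ≠ 0 := by
    by_contra h
    push Not at h
    exact hcI h
  obtain ⟨Sf, hSf, hSfx⟩ := hc _ hm'
  set y₀ := (pmap (flQ p H))^[m'] (cO z) with hy₀
  set V : Set (Fin (N + 1) → Qb) := {w | ∀ q ∈ I, eval w q = 0} with hV
  have hV₀ : y₀ ∈ V := fun q hq => hq m'
  have hVt : ∀ w, pmap (flQ p H) w ∈ V → eval (pmap (flQ p H) w) Δ ≠ 0 → w ∈ V :=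
    fun w hw hΔ q hq => tot hprim hI hw hΔ hq
  have hxV : ∀ x ∈ Sf, x ∈ V := by
    intro x hx
    apply tot_it hVt (n * i) x
    · rw [(hSfx x hx).1]
      exact hV₀
    · intro j hj
      have h1 := (hSfx x hx).2 j hj
      rw [map_mul] at h1
      exact left_ne_zero_of_mul h1
  have hcomp : comp (it (it F k) (n * i)) (Lp p a) = comp (Lp p a) (it (flQ p H) (n * i)) :=
    iterate_map_eq (comp_conj hconjT) (n * i)
  have hxj : ∀ x ∈ Sf, eval (lam p a x) (jac (it (it F k) (n * i))) ≠ 0 := by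
    intro x hx
    rw [← pmap_Lp]
    apply jac_conj_ne (comp_Lm_Lp p a) hcomp
    apply jac_it_ne
    intro j hj
    have h1 := (hSfx x hx).2 j hj
    rw [map_mul] at h1
    exact right_ne_zero_of_mul h1
  have hlaminj : Function.Injective (lam p a : (Fin (N + 1) → Qb) → Fin (N + 1) → Qb) := by
    intro u w huw
    rw [← Lm_lam p a u, huw, Lm_lam]
  -- the fibre of `T ^ (n i)`
  have hYne : lam p a y₀ ≠ 0 := by
    rw [hy₀, ← iter_conj hconjT, pmap_it_iterate]
    exact hne0 _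
  have hfib : ∀ x ∈ Sf.image (lam p a), pmap (it (it F k) (n * i)) x = lam p a y₀ := by
    intro x hx
    obtain ⟨w, hw, rfl⟩ := Finset.mem_image.mp hx
    rw [pmap_it, iter_conj hconjT, (hSfx w hw).1]
  have hTh : ∀ j, (it (it F k) (n * i) j).IsHomogeneous ((d ^ k) ^ (n * i)) := it_hom hT (n * i)
  obtain ⟨S', hS'sub, hS'np, hS'card⟩ := hCLS (N + 1) Qb (it (it F k) (n * i))
    ((d ^ k) ^ (n * i)) (lam p a y₀) (Sf.image (lam p a)) (Nat.one_le_pow _ _ (by omega)) hTh
    hYne hfib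
  rw [Finset.card_image_of_injective _ hlaminj, hSf] at hS'card
  have hbig : (e ^ n) ^ (k * i) ≤ S'.card := by
    have h1 : ((d * e) ^ k) ^ (n * i) ≤ (d ^ k) ^ (n * i) * S'.card :=
      (Nat.pow_le_pow_left hE0 _).trans hS'card
    have h2 : ((d * e) ^ k) ^ (n * i) = (d ^ k) ^ (n * i) * (e ^ n) ^ (k * i) := by
      rw [mul_pow, mul_pow, ← pow_mul e k, ← pow_mul e n]
      congr 2
      ring
    rw [h2] at h1
    exact Nat.le_of_mul_le_mul_left h1 (pow_pos (pow_pos (by omega) _) _)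
  -- the condition on the hypersurfaces
  have hKH' : KH (it (it F k) (n * i)) (m ^ (k * i)) := by
    have h1 := hKHI (N + 1) Qb (it F n) (d ^ n) m (k * i) (Nat.one_le_pow _ _ (by omega))
      (it_hom hF n) hKH
    rw [it_mul] at h1
    rw [it_mul, show k * (n * i) = n * (k * i) by ring]
    exact h1
  set en := S'.equivFin with hen
  have hxS' : ∀ b : Fin S'.card, ∃ w ∈ Sf, lam p a w = (en.symm b : Fin (N + 1) → Qb) := by
    intro b
    obtain ⟨w, hw, h⟩ := Finset.mem_image.mp (hS'sub (en.symm b).2)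
    exact ⟨w, hw, h⟩
  have hpos : 0 < S'.card := lt_of_lt_of_le (pow_pos (pow_pos he _) _) hbig
  have hS'0 : ∀ c : Fin S'.card, (en.symm c : Fin (N + 1) → Qb) ≠ 0 := by
    intro c h0
    have h1 := hfib _ (hS'sub (en.symm c).2)
    rw [h0] at h1
    apply hYne
    rw [← h1]
    have h2 := pmap_smul_of_hom hTh (0 : Qb) (0 : Fin (N + 1) → Qb)
    have h3 : (fun i => (0 : Qb) * (0 : Fin (N + 1) → Qb) i) = 0 := by
      funext i
      exact zero_mul _
    rw [h3, zero_pow (by positivity)] at h2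
    rw [h2]
    funext i
    exact zero_mul _
  have hSx : ∀ c : Fin S'.card, eval (en.symm c : Fin (N + 1) → Qb) S = 0 := by
    intro c
    obtain ⟨w, hw, h⟩ := hxS' c
    have h1 := hxV w hw _ hSI
    rw [Pool.Agent.H18.HIT.eval_aeval, pmap_Lp] at h1
    rw [← h]
    exact h1
  have hfin := hMUL (N + 1) Qb (it (it F k) (n * i)) S S'.card (m ^ (k * i) * r)
    (fun c => (en.symm c : Fin (N + 1) → Qb)) (lam p a y₀)
    (fun c => hfib _ (hS'sub (en.symm c).2))
    (fun c => by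
      obtain ⟨w, hw, h⟩ := hxS' c
      rw [← h]
      exact hxj w hw) hS0 hSx (by
      intro ρ
      obtain ⟨L, hLh, hL0, hLρ⟩ := hLNH (N + 1) Qb S'.card r
        (fun c => (en.symm c : Fin (N + 1) → Qb)) hr1 hS'0 (by
          intro c c' hcc
          apply hS'np _ (en.symm c).2 _ (en.symm c').2
          intro h
          exact hcc (en.symm.injective (Subtype.ext h))) ρ
      refine ⟨L, hL0, hLρ, fun ε => ?_⟩
      apply hKH' r (S + C ε * L) (hSh.add (hLh.C_mul ε))
      intro h0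
      have h1 := congrArg (eval (en.symm ⟨0, hpos⟩ : Fin (N + 1) → Qb)) h0
      rw [map_add, map_mul, eval_C, hSx, zero_add, map_zero] at h1
      have h2 : ε = 0 := (mul_eq_zero.mp h1).resolve_right (hL0 ⟨0, hpos⟩)
      rw [h2, C_0, zero_mul, add_zero] at h0
      exact hS0 h0)
  have h9 : (e ^ n) ^ (k * i) ≤ m ^ (k * i) * r := hbig.trans hfin
  rw [Nat.mul_comm (m ^ (k * i)) r] at h9
  exact absurd h9 (not_le.mpr hi)

end Pool.Agent.H8.BIG
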