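import Pool.Agent.H18.HIT.Targets

/-!
# Rational maps of large topological degree: targets

The image of every hypersurface of degree `r` under `T` lies in a hypersurface of degree at most
`m r`; a totally invariant hypersurface would have too large multiplicity.
-/

open MvPolynomial
open Pool.Agent.H12.ZD (pmap v O Res DenseOrbit NoInv)
open Pool.Agent.H18.HIT

namespace Pool.Agent.H8.BIG

section defs

variable {N : ℕ} {k : Type} [Field k]

/-- `T` maps every hypersurface of degree `r` into a hypersurface of degree at most `m r` -/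
def KK (T : Tup N k) (m : ℕ) : Prop := ∀ S : Po N k, S ≠ 0 →
  ∃ Q : Po N k, Q ≠ 0 ∧ Q.totalDegree ≤ m * S.totalDegree ∧ S ∣ aeval T Q

/-- the same for homogeneous polynomials `S` -/
def KH (T : Tup N k) (m : ℕ) : Prop := ∀ (r : ℕ) (S : Po N k), S.IsHomogeneous r → S ≠ 0 →
  ∃ Q : Po N k, Q ≠ 0 ∧ Q.totalDegree ≤ m * r ∧ S ∣ aeval T Q

/-- proportional vectors -/
def Prop2 (u w : Fin N → k) : Prop := ∀ s t, u s * w t = u t * w s

end defs

/-- the field of rational functions in the coordinates of a generic direction -/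
abbrev KF (N : ℕ) (k : Type) [Field k] : Type := FractionRing (Po N k)

/-- the line through `y` with generic direction, parametrized by `t` -/
noncomputable def line {N : ℕ} {k : Type} [Field k] (y : Fin N → k) :
    Fin N → PowerSeries (KF N k) := fun i =>
  PowerSeries.C (algebraMap k (KF N k) (y i)) +
    PowerSeries.C (algebraMap (Po N k) (KF N k) (X i)) * PowerSeries.X

/-! ## Part 1: the multiplicity of a hypersurface -/

/-- curves can be lifted through a map with invertible jacobian matrix -/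
def T_FCL : Prop := ∀ (N : ℕ) (K : Type) [Field K] (T : Tup N K) (x₀ : Fin N → K)
  (y : Fin N → PowerSeries K), eval x₀ (jac T) ≠ 0 →
  (∀ i, PowerSeries.constantCoeff (y i) = eval x₀ (T i)) →
  ∃ x : Fin N → PowerSeries K, (∀ i, PowerSeries.constantCoeff (x i) = x₀ i) ∧
    ∀ i, aeval x (T i) = y i

/-- pencils of linear maps without injective member have a polynomial kernel -/
def T_LA : Prop := ∀ (k : Type) [Field k] [Infinite k] (V U : Type) [AddCommGroup V]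
  [Module k V] [Module.Finite k V] [AddCommGroup U] [Module k U] (A B : V →ₗ[k] U),
  (∀ ε : k, ∃ w : V, w ≠ 0 ∧ A w + ε • B w = 0) →
  ∃ (J : ℕ) (w : ℕ → V), w 0 ≠ 0 ∧ A (w 0) = 0 ∧ (∀ j, A (w (j + 1)) + B (w j) = 0) ∧
    ∀ j, J ≤ j → w j = 0

/-- a polynomial of degree less than `E` has no zero of order `E` on a generic line -/
def T_GEN : Prop := ∀ (N : ℕ) (k : Type) [Field k] (y : Fin N → k) (q : Po N k) (E : ℕ),
  q.totalDegree < E → PowerSeries.X ^ E ∣ aeval (line y) q → q = 0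

/-- the multiplicity of the image of a hypersurface `S = 0` at a point with many preimages on
`S = 0` -/
def T_MUL : Prop := ∀ (N : ℕ) (k : Type) [Field k] [Infinite k] (T : Tup N k) (S : Po N k)
  (E μ : ℕ) (x : Fin E → Fin N → k) (y : Fin N → k), (∀ a, pmap T (x a) = y) →
  (∀ a, eval (x a) (jac T) ≠ 0) → S ≠ 0 → (∀ a, eval (x a) S = 0) →
  (∀ ρ : Fin E → Fin E → k, ∃ L : Po N k, (∀ a, eval (x a) L ≠ 0) ∧
    (∀ a b, a ≠ b → eval (x a) L ≠ ρ a b * eval (x b) L) ∧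
    ∀ ε : k, ∃ Q : Po N k, Q ≠ 0 ∧ Q.totalDegree ≤ μ ∧ (S + C ε * L) ∣ aeval T Q) →
  E ≤ μ

/-- linear polynomials with general values at finitely many points -/
def T_LNA : Prop := ∀ (N : ℕ) (k : Type) [Field k] [Infinite k] (E : ℕ)
  (x : Fin E → Fin N → k), (∀ a b, a ≠ b → x a ≠ x b) → ∀ ρ : Fin E → Fin E → k,
  ∃ L : Po N k, L.totalDegree ≤ 1 ∧ (∀ a, eval (x a) L ≠ 0) ∧
    ∀ a b, a ≠ b → eval (x a) L ≠ ρ a b * eval (x b) L

/-- powers of linear forms with general values at finitely many points of projective space -/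
def T_LNH : Prop := ∀ (N : ℕ) (k : Type) [Field k] [Infinite k] (E r : ℕ)
  (x : Fin E → Fin N → k), 1 ≤ r → (∀ a, x a ≠ 0) → (∀ a b, a ≠ b → ¬ Prop2 (x a) (x b)) →
  ∀ ρ : Fin E → Fin E → k, ∃ L : Po N k, L.IsHomogeneous r ∧ (∀ a, eval (x a) L ≠ 0) ∧
    ∀ a b, a ≠ b → eval (x a) L ≠ ρ a b * eval (x b) L

/-- representatives up to proportionality of the points of a fibre of a homogeneous map -/
def T_CLS : Prop := ∀ (N : ℕ) (k : Type) [Field k] (T : Tup N k) (D : ℕ) (y : Fin N → k)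
  (S : Finset (Fin N → k)), 1 ≤ D → (∀ i, (T i).IsHomogeneous D) → y ≠ 0 →
  (∀ x ∈ S, pmap T x = y) → ∃ S' ⊆ S, (∀ x ∈ S', ∀ x' ∈ S', x ≠ x' → ¬ Prop2 x x') ∧
    S.card ≤ D * S'.card

/-! ## Part 2: generic fibres over a totally invariant variety -/

/-- norms of polynomials which do not vanish on a totally invariant variety -/
def T_NRM : Prop := ∀ (N : ℕ) (k : Type) [Field k] (G : Tup N k) (θ : Po N k)
  (Φ : Polynomial (Po N k)) (Δ : Po N k) (R : Fin N → Polynomial (Po N k))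
  (I : Ideal (Po N k)), Prim G θ Φ Δ R → I.IsPrime → (∀ c ∈ I, aeval G c ∈ I) →
  aeval G Δ ∉ I →
  (∀ g : Fin Φ.natDegree → Po N k,
    (∑ i : Fin Φ.natDegree, θ ^ (i : ℕ) * aeval G (g i)) ∈ I → ∀ i, g i ∈ I) →
  ∀ q : Po N k, q ∉ I → ∃ c : Po N k, c ∉ I ∧ q ∣ aeval G c

/-- the fibres of the iterates over the general point of a totally invariant variety -/
def T_FIB : Prop := ∀ (N : ℕ) (k : Type) [Field k] (G : Tup N k) (I : Ideal (Po N k)) (E : ℕ)
  (cG q₀ : Po N k), I.IsPrime → (∀ q : Po N k, q ∉ I → ∃ c : Po N k, c ∉ I ∧ q ∣ aeval G c) →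
  cG ∉ I → (∀ y : Fin N → k, eval y cG ≠ 0 →
    ∃ S : Finset (Fin N → k), S.card = E ∧ ∀ x ∈ S, pmap G x = y) → q₀ ∉ I →
  ∀ n : ℕ, ∃ c : Po N k, c ∉ I ∧ ∀ y : Fin N → k, eval y c ≠ 0 →
    ∃ S : Finset (Fin N → k), S.card = E ^ n ∧ ∀ x ∈ S, (pmap G)^[n] x = y ∧
      ∀ j, j ≤ n → eval ((pmap G)^[j] x) q₀ ≠ 0

/-! ## Part 3: the condition on the images of hypersurfaces -/

/-- iterates -/
def T_KKI : Prop := ∀ (N : ℕ) (k : Type) [Field k] (T : Tup N k) (m i : ℕ), KK T m →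
  KK (it T i) (m ^ i)

/-- conjugation by an affine automorphism -/
def T_KKC : Prop := ∀ (N : ℕ) (k : Type) [Field k] (T G L L' : Tup N k) (m : ℕ),
  (∀ i, (L i).totalDegree ≤ 1) → (∀ i, (L' i).totalDegree ≤ 1) →
  comp L' L = (fun i => X i) → comp L L' = (fun i => X i) → comp T L = comp L G → KK T m →
  KK G m

/-- iterates, homogeneous version -/
def T_KHI : Prop := ∀ (N : ℕ) (k : Type) [Field k] (T : Tup N k) (D m i : ℕ), 1 ≤ D →
  (∀ i, (T i).IsHomogeneous D) → KH T m → KH (it T i) (m ^ i)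

/-- specialization -/
def T_KSP : Prop := ∀ (N : ℕ) (A : Type) [CommRing A] (k k' : Type) [Field k] [Field k']
  [Infinite k] (φ : A →+* k) (ψ : A →+* k') (T : Tup N A) (Λ : Finset (Fin N →₀ ℕ)) (μ : ℕ),
  Function.Injective φ →
  (∀ S : Po N k, S ≠ 0 → S.support ⊆ Λ →
    ∃ Q : Po N k, Q ≠ 0 ∧ Q.totalDegree ≤ μ ∧ S ∣ aeval (mp φ T) Q) →
  ∀ S : Po N k', S ≠ 0 → S.support ⊆ Λ →
    ∃ Q : Po N k', Q ≠ 0 ∧ Q.totalDegree ≤ μ ∧ S ∣ aeval (mp ψ T) Q

/-- specialization to the algebraic numbers, with the ring of definition -/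
def T_SP2 : Prop := ∀ (N : ℕ) (k : Type) [Field k] [IsAlgClosed k] [CharZero k] (f : Tup N k)
  (b : Po N k) (e D : ℕ) (Φ : Polynomial (Po N k)) (θ ρ Δ : Po N k)
  (R : Fin N → Polynomial (Po N k)), CDat f e D Φ θ ρ Δ R → ρ ≠ 0 → Δ ≠ 0 → b ≠ 0 →
  ∃ (A : Subring k) (φ : A →+* Qb) (fA : Tup N A) (b' : Po N Qb),
    mp A.subtype fA = f ∧ b' ≠ 0 ∧
    (∃ (Φ' : Polynomial (Po N Qb)) (θ' ρ' Δ' : Po N Qb) (R' : Fin N → Polynomial (Po N Qb)),
      CDat (mp φ fA) e D Φ' θ' ρ' Δ' R' ∧ ρ' ≠ 0 ∧ Δ' ≠ 0) ∧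
    ∀ x : Fin N → Qb, (∀ n : ℕ, eval ((pmap (mp φ fA))^[n] x) b' ≠ 0) →
      DenseOrbit (mp φ fA) x →
      ∃ y : Fin N → k, (∀ n : ℕ, eval ((pmap f)^[n] y) b ≠ 0) ∧ DenseOrbit f y

/-- maps of degree `δ` map hypersurfaces of degree `r` into hypersurfaces of degree about
`N δ ^ (N - 1) r` -/
def T_DIM : Prop := ∀ (N : ℕ) (k : Type) [Field k] (G : Tup N k) (δ : ℕ), 1 ≤ N → 1 ≤ δ →
  (∀ i, (G i).totalDegree ≤ δ) → KK G (N * (δ + N) ^ (N - 1) + 1)

/-! ## Part 4: the theorems over the algebraic numbers -/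

/-- polynomial maps of affine space -/
def T_BA : Prop := ∀ (N : ℕ) (f : Tup N Qb) (b : Po N Qb) (e n m : ℕ), Cov f e → 1 ≤ n →
  KK (it f n) m → m < e ^ n → b ≠ 0 →
  ∃ x : Fin N → Qb, (∀ n : ℕ, eval ((pmap f)^[n] x) b ≠ 0) ∧ DenseOrbit f x

/-- homogeneous lifts of rational self-maps of projective space -/
def T_BP : Prop := ∀ (N : ℕ) (F : Tup (N + 1) Qb) (b : Po (N + 1) Qb) (d e n m : ℕ), 2 ≤ d →
  (∀ i, (F i).IsHomogeneous d) → Cov F (d * e) → 1 ≤ n → KH (it F n) m → m < e ^ n → b ≠ 0 →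
  ∃ x : Fin (N + 1) → Qb, (∀ n : ℕ, eval ((pmap F)^[n] x) b ≠ 0) ∧ DenseOrbit F x

end Pool.Agent.H8.BIG
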