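import Pool.Agent.H8.P2.AFF
import Pool.Agent.H8.BIG.Targets

/-!
# The core of the construction for a given primitive element
-/

open MvPolynomial
open Pool.Agent.H12.ZD (pmap v O Res DenseOrbit NoInv)
open Pool.Agent.H18.HIT Pool.Agent.H8.HIT Pool.Agent.H8.P2

namespace Pool.Agent.H8.BIG

/-- the core of the construction, with the total invariance for all the elements of the fibre -/
theorem core1 {N : ℕ} (p : Nat.Primes) (hp : 3 ≤ (p : ℕ)) (H : Tup N (O p))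
    {θ : Po N Qb} {Φ : Polynomial (Po N Qb)} {Δ : Po N Qb} {R : Fin N → Polynomial (Po N Qb)}
    (hinj : Function.Injective (aeval (flQ p H) : Po N Qb →ₐ[Qb] Po N Qb))
    (hprim : Prim (flQ p H) θ Φ Δ R) (c : Po N Qb) (hc : c ≠ 0) :
    ∃ (z P : Fin N → O p), eval (cO z) c ≠ 0 ∧ eval (cO z) Δ ≠ 0 ∧ pmap (fl p H) P = z ∧
      (∀ q ∈ van (flQ p H) (cO z), eval (cO P) q = 0) ∧
      (∀ P' : Fin N → Qb, pmap (flQ p H) P' = cO z → ∃ σ : Qb ≃+* Qb,
        (∀ i, map (σ : Qb →+* Qb) (flQ p H i) = flQ p H i) ∧ (∀ i, σ (cO z i) = cO z i) ∧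
        ∀ i, σ (cO P i) = P' i) ∧
      (∀ g : Fin Φ.natDegree → Po N Qb,
        (∑ i : Fin Φ.natDegree, θ ^ (i : ℕ) * aeval (flQ p H) (g i)) ∈ van (flQ p H) (cO z) →
        ∀ i, g i ∈ van (flQ p H) (cO z)) := by
  obtain ⟨cG, hcG0, hcG⟩ := All.cve N Qb (flQ p H) θ Φ Δ R hinj hprim
  obtain ⟨z₀, hz₀, hgal⟩ := All.hit N (flQ p H) (c * (Δ * cG)) hinj
    (mul_ne_zero hc (mul_ne_zero hprim.ne hcG0))
  set z : Fin N → O p := fun i => ((z₀ i : ℤ) : O p) with hz
  have hzc : cO z = cZ z₀ := cO_intCast p z₀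
  rw [map_mul, map_mul, ← hzc] at hz₀
  have hzΔ : eval (cO z) Δ ≠ 0 := left_ne_zero_of_mul (right_ne_zero_of_mul hz₀)
  obtain ⟨P, hP, hPvan⟩ := All.pre N p H z θ Φ Δ R hp hprim hzΔ
  obtain ⟨S, hS, hS'⟩ := hcG (cO z) (right_ne_zero_of_mul (right_ne_zero_of_mul hz₀))
  have hPG : pmap (flQ p H) (cO P) = cO z := by
    rw [← hP]
    exact pmap_cO (fl p H) P
  have hgal' : ∀ P' : Fin N → Qb, pmap (flQ p H) P' = cO z → ∃ σ : Qb ≃+* Qb,
        (∀ i, map (σ : Qb →+* Qb) (flQ p H i) = flQ p H i) ∧ (∀ i, σ (cO z i) = cO z i) ∧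
        ∀ i, σ (cO P i) = P' i := by
    intro P' hP'
    obtain ⟨σ, hσ1, hσ2⟩ := hgal (cO P) P' (by rw [← hzc]; exact hPG) (by rw [← hzc]; exact hP')
    refine ⟨σ, hσ1, fun i => ?_, hσ2⟩
    rw [hzc]
    exact map_intCast σ (z₀ i)
  have hjn : ∀ n, eval ((pmap (flQ p H))^[n] (cO z)) (jac (flQ p H)) ≠ 0 := by
    intro n
    rw [flQ_iterate]
    exact jac_fl_ne p H _
  have hIJ := All.ijp N Qb (flQ p H) (cO z) (cO P) hPG hjn (jac_fl_ne p H P) hPvan
  set en := Finset.equivFinOfCardEq hS with hen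
  have hG : ∀ a : Fin Φ.natDegree, (∀ (l : ℕ) (c : Po N Qb),
      aeval (flQ p H) c ∈ van (flQ p H) (cO z) ⊔ mx ((en.symm a : Fin N → Qb)) ^ l →
        c ∈ van (flQ p H) (cO z) ⊔ mx (cO z) ^ l) ∧
      eval ((en.symm a : Fin N → Qb)) (jac (flQ p H)) ≠ 0 ∧
      pmap (flQ p H) ((en.symm a : Fin N → Qb)) = cO z := by
    intro a
    obtain ⟨σ, h1, h2, h3⟩ := hgal' (en.symm a : Fin N → Qb) (hS' _ (en.symm a).2)
    obtain ⟨g1, g2, g3, g4⟩ := All.glt N Qb (flQ p H) (cO z) (cO P)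
      (en.symm a : Fin N → Qb) σ h1 h2 h3 hIJ
    refine ⟨g1, ?_, g4 hPG⟩
    intro h0
    rw [← g3] at h0
    exact jac_fl_ne p H P ((map_eq_zero σ).1 h0)
  refine ⟨z, P, left_ne_zero_of_mul hz₀, hzΔ, hP, hPvan, hgal', ?_⟩
  intro g hg i
  have hall := Pool.Agent.H94.HIT.pf_VDM N Qb (flQ p H) (cO z) Φ.natDegree
    (fun a => (en.symm a : Fin N → Qb)) θ
    (fun a => (hG a).2.2) (fun a b hab => by
      have h1 := thd hprim hzΔ (hG a).2.2 (hG b).2.2 hab
      exact en.symm.injective (Subtype.ext h1))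
    (fun a l q => All.etl N Qb (flQ p H) _ (hG a).2.1 l q) (fun a => (hG a).1) g hg i
  obtain ⟨m, hm, hmc⟩ := Pool.Agent.H94.HIT.pf_KRU N Qb (van (flQ p H) (cO z)) (cO z) (g i) hall
  refine All.inc N p H z (1 - m) (g i) hp hmc ?_
  rw [map_sub, map_one, mem_mx.1 hm, sub_zero]
  exact one_ne_zero

section iter

variable {N : ℕ} {k : Type} [Field k]

/-- total invariance under the iterates -/
theorem tot_it {G : Tup N k} {V : Set (Fin N → k)} {Δ : Po N k}
    (h : ∀ w, pmap G w ∈ V → eval (pmap G w) Δ ≠ 0 → w ∈ V) (n : ℕ) :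
    ∀ x, (pmap G)^[n] x ∈ V → (∀ j, j ≤ n → eval ((pmap G)^[j] x) Δ ≠ 0) → x ∈ V := by
  induction n with
  | zero => exact fun x hx _ => hx
  | succ n ih =>
    intro x hx hj
    apply h x
    · apply ih (pmap G x)
      · rwa [← Function.iterate_succ_apply]
      · intro j hjn
        rw [← Function.iterate_succ_apply]
        exact hj (j + 1) (by omega)
    · exact hj 1 (by omega)

/-- the jacobian determinant of an iterate -/
theorem jac_it_ne {G : Tup N k} (n : ℕ) {x : Fin N → k}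
    (h : ∀ j, j ≤ n → eval ((pmap G)^[j] x) (jac G) ≠ 0) : eval x (jac (it G n)) ≠ 0 := by
  induction n with
  | zero =>
    rw [it_zero]
    have h7 : jac (fun i => (X i : Po N k)) = 1 := by
      have h8 : Matrix.of (fun i j => pderiv j (X i : Po N k)) = 1 := by
        ext1 i j
        rw [Matrix.of_apply, pderiv_X, Pi.single_apply, Matrix.one_apply]
      rw [jac, h8, Matrix.det_one]
    rw [h7, map_one]
    exact one_ne_zero
  | succ n ih =>
    rw [it_succ, (Pool.Agent.H8.HIT.pf_CHN N k G (it G n)).2, map_mul,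
      Pool.Agent.H18.HIT.eval_aeval, pmap_it]
    exact mul_ne_zero (h n (by omega)) (ih fun j hj => h j (by omega))

end iter

end Pool.Agent.H8.BIG
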