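import Pool.Agent.H8.BIG.Targets
import Pool.Agent.H55.HIT.PNI

/-!
# The images of hypersurfaces under iterates of homogeneous maps
-/

open MvPolynomial
open Pool.Agent.H12.ZD (pmap v O Res DenseOrbit NoInv)
open Pool.Agent.H18.HIT
open Pool.Agent.H55.HIT (sum_hc)

namespace Pool.Agent.H8.BIG

/-- a homogeneous polynomial which divides `Q ∘ T` divides `Q_s ∘ T` -/
theorem dvd_component {N : ℕ} {k : Type} [Field k] {T : Tup N k} {D : ℕ} (hD : 1 ≤ D)
    (hT : ∀ i, (T i).IsHomogeneous D) {r : ℕ} {S Q : Po N k} (hS : S.IsHomogeneous r)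
    (h : S ∣ aeval T Q) (s : ℕ) : S ∣ aeval T (homogeneousComponent s Q) := by
  obtain ⟨W, hW⟩ := h
  have h1 : homogeneousComponent (D * s) (aeval T Q) = aeval T (homogeneousComponent s Q) := by
    have e1 : aeval T Q = ∑ i ∈ Finset.range (max Q.totalDegree s + 1),
        aeval T (homogeneousComponent i Q) := by
      rw [← map_sum, sum_hc (le_max_left _ _)]
    rw [e1, map_sum, Finset.sum_eq_single s]
    · rw [homogeneousComponent_of_mem (n := D * s)
        ((homogeneousComponent_isHomogeneous s Q).aeval T hT), if_pos rfl]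
    · intro i hi his
      rw [homogeneousComponent_of_mem (n := D * i)
        ((homogeneousComponent_isHomogeneous i Q).aeval T hT), if_neg]
      intro h
      exact his (Nat.eq_of_mul_eq_mul_left hD h).symm
    · intro hs
      exact absurd (Finset.mem_range.2 (by omega)) hs
  rw [← h1, hW]
  have e2 : S * W = ∑ i ∈ Finset.range (W.totalDegree + 1), S * homogeneousComponent i W := by
    rw [← Finset.mul_sum, sum_hc le_rfl]
  rw [e2, map_sum]
  apply Finset.dvd_sum
  intro i _
  rw [homogeneousComponent_of_mem (n := r + i)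
    (hS.mul (homogeneousComponent_isHomogeneous i W))]
  split_ifs
  · exact dvd_mul_right _ _
  · exact dvd_zero _

theorem pf_KHI : T_KHI := by
  intro N k _ T D m i hD hT hK
  induction i with
  | zero =>
    intro r S hS hS0
    refine ⟨S, hS0, ?_, ?_⟩
    · rw [pow_zero, one_mul]
      exact hS.totalDegree_le
    · rw [it_zero]
      have : aeval (fun i => (X i : Po N k)) S = S := aeval_X_left_apply S
      rw [this]
  | succ i ih =>
    intro r S hS hS0
    obtain ⟨Q, hQ, hQd, hQS⟩ := hK r S hS hS0
    set s := Q.totalDegree with hs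
    have hQs : homogeneousComponent s Q ≠ 0 := Pool.Agent.H55.HIT.hc_top_ne hQ
    obtain ⟨Q', hQ', hQ'd, hQ'S⟩ := ih s (homogeneousComponent s Q)
      (homogeneousComponent_isHomogeneous _ _) hQs
    refine ⟨Q', hQ', ?_, ?_⟩
    · calc Q'.totalDegree ≤ m ^ i * s := hQ'd
        _ ≤ m ^ i * (m * r) := Nat.mul_le_mul_left _ hQd
        _ = m ^ (i + 1) * r := by rw [pow_succ, mul_assoc]
    · rw [aeval_it_succ']
      exact (dvd_component hD hT hS hQS s).trans
        (map_dvd (aeval T : Po N k →ₐ[k] Po N k) hQ'S)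

end Pool.Agent.H8.BIG
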