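import Pool.Agent.H8.BIG.Targets
import Pool.Agent.H8.BIG.BP
import Pool.Agent.H8.BIG.KHI

/-!
# Hypersurfaces under homogeneous maps: a dimension count
-/

open MvPolynomial
open Pool.Agent.H12.ZD (pmap v O Res DenseOrbit NoInv)
open Pool.Agent.H18.HIT

namespace Pool.Agent.H8.BIG

theorem card_degree (r w : ℕ) :
    Nat.card {d : Fin (r + 1) →₀ ℕ // d.degree = w} = (w + r).choose r := by
  have h1 := Finset.card_finsuppAntidiag_nat_eq_choose
    (s := (Finset.univ : Finset (Fin (r + 1)))) w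
  rw [Finset.card_univ, Fintype.card_fin] at h1
  have h2 : r + 1 + w - 1 = w + r := by omega
  rw [h2, Nat.choose_symm_add] at h1
  rw [← h1]
  apply Nat.subtype_card
  intro d
  rw [Finset.mem_finsuppAntidiag, Finsupp.degree_eq_sum]
  simp

/-- The dimension of the space of forms of degree `w` (after H15.EGH.Dim), with finiteness. -/
theorem finrank_homog (K : Type) [Field K] (r w : ℕ) :
    Module.Finite K (homogeneousSubmodule (Fin (r + 1)) K w) ∧
    Module.finrank K (homogeneousSubmodule (Fin (r + 1)) K w) = (w + r).choose r := by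
  classical
  rw [← card_degree]
  let A : Set (Fin (r + 1) →₀ ℕ) := {d | d.degree = w}
  have hfin : A.Finite := (Finsupp.finite_of_degree_le w).subset fun d hd => le_of_eq hd
  have : Fintype A := hfin.fintype
  have h1 : homogeneousSubmodule (Fin (r + 1)) K w =
      Submodule.span K (Set.range fun p : A => basisMonomials (Fin (r + 1)) K p) := by
    have h2 : (Set.range fun p : A => basisMonomials (Fin (r + 1)) K p) =
        basisMonomials (Fin (r + 1)) K '' A := by
      ext x; simp
    rw [h2]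
    ext v
    rw [Module.Basis.mem_span_image, mem_homogeneousSubmodule]
    constructor
    · intro h p hp
      rw [Finset.mem_coe, Finsupp.mem_support_iff] at hp
      have h3 := h hp
      change p.degree = w
      rw [← h3, Finsupp.degree_eq_weight_one]
      rfl
    · intro h m hm
      have h4 : m ∈ A := by
        apply h
        rw [Finset.mem_coe, Finsupp.mem_support_iff]
        exact hm
      rw [← (show m.degree = w from h4), Finsupp.degree_eq_weight_one]
      rfl
  rw [h1]
  constructor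
  · exact Module.Finite.span_of_finite K (Set.finite_range _)
  · rw [finrank_span_eq_card]
    · rw [← Nat.card_eq_fintype_card]
      rfl
    · exact (basisMonomials (Fin (r + 1)) K).linearIndependent.comp _ Subtype.val_injective

theorem choose_step (a M r : ℕ) :
    (a + r).choose (M + 1) ≤ a.choose (M + 1) + r * (a + r - 1).choose M := by
  induction r with
  | zero => simp
  | succ r ih =>
    rw [← Nat.add_assoc, Nat.choose_succ_succ, Nat.add_sub_cancel]
    have h1 : (a + r - 1).choose M ≤ (a + r).choose M := Nat.choose_le_choose M (by omega)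
    calc (a + r).choose M + (a + r).choose (M + 1)
        ≤ (a + r).choose M + (a.choose (M + 1) + r * (a + r - 1).choose M) := by omega
      _ ≤ (a + r).choose M + (a.choose (M + 1) + r * (a + r).choose M) := by
          have := Nat.mul_le_mul_left r h1
          omega
      _ = a.choose (M + 1) + (r + 1) * (a + r).choose M := by ring

/-- homogeneous maps of degree `δ` map hypersurfaces of degree `r` into hypersurfaces of degree
about `N δ ^ (N - 1) r` -/
theorem dimH {N : ℕ} {k : Type} [Field k] (G : Tup (N + 1) k) (δ : ℕ) (hN : 1 ≤ N) (hδ : 1 ≤ δ)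
    (hG : ∀ i, (G i).IsHomogeneous δ) : KH G (N * (δ + N) ^ (N - 1) + 1) := by
  intro r S hS hS0
  rcases Nat.eq_zero_or_pos r with h0 | hr
  · subst h0
    have h1 : S = C (coeff 0 S) := totalDegree_eq_zero_iff_eq_C.mp
      (Nat.le_zero.mp hS.totalDegree_le)
    refine ⟨1, one_ne_zero, by rw [totalDegree_one]; omega, ?_⟩
    have hc : coeff 0 S ≠ 0 := by
      intro h
      apply hS0
      rw [h1, h, C_0]
    rw [h1]
    exact ((isUnit_iff_ne_zero.mpr hc).map C).dvd
  set m := N * (δ + N) ^ (N - 1) + 1 with hm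
  by_contra hcon
  push Not at hcon
  obtain ⟨M, rfl⟩ : ∃ M, N = M + 1 := ⟨N - 1, by omega⟩
  set s := m * r with hs
  have hs1 : r ≤ s := Nat.le_mul_of_pos_left r (by omega)
  have hsr : r ≤ δ * s := hs1.trans (Nat.le_mul_of_pos_left s hδ)
  obtain ⟨hf1, hd1⟩ := finrank_homog k (M + 1) s
  obtain ⟨hf2, hd2⟩ := finrank_homog k (M + 1) (δ * s - r)
  obtain ⟨hf3, hd3⟩ := finrank_homog k (M + 1) (δ * s)
  let Ψ₀ : (homogeneousSubmodule (Fin (M + 1 + 1)) k s) ×
      (homogeneousSubmodule (Fin (M + 1 + 1)) k (δ * s - r)) →ₗ[k] Po (M + 1 + 1) k :=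
    ((aeval G : Po (M + 1 + 1) k →ₐ[k] Po (M + 1 + 1) k).toLinearMap ∘ₗ
      (homogeneousSubmodule (Fin (M + 1 + 1)) k s).subtype) ∘ₗ LinearMap.fst k _ _ -
    (LinearMap.mulLeft k S ∘ₗ
      (homogeneousSubmodule (Fin (M + 1 + 1)) k (δ * s - r)).subtype) ∘ₗ LinearMap.snd k _ _
  have hΨ₀ : ∀ x, Ψ₀ x = aeval G (x.1 : Po (M + 1 + 1) k) - S * (x.2 : Po (M + 1 + 1) k) :=
    fun x => rfl
  have hmem : ∀ x, Ψ₀ x ∈ homogeneousSubmodule (Fin (M + 1 + 1)) k (δ * s) := by
    intro x
    rw [hΨ₀, mem_homogeneousSubmodule]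
    apply IsHomogeneous.sub
    · exact aeval_hom hG x.1.2
    · have h2 := hS.mul ((mem_homogeneousSubmodule _ _).mp x.2.2)
      rwa [Nat.add_sub_cancel' hsr] at h2
  have hinj : Function.Injective (Ψ₀.codRestrict _ hmem) := by
    rw [injective_iff_map_eq_zero]
    rintro ⟨Q, W⟩ hQW
    have h1 : aeval G (Q : Po (M + 1 + 1) k) - S * (W : Po (M + 1 + 1) k) = 0 := by
      rw [← hΨ₀ (Q, W)]
      exact congrArg Subtype.val hQW
    rw [sub_eq_zero] at h1
    have hQ0 : (Q : Po (M + 1 + 1) k) = 0 := by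
      by_contra hQ
      exact hcon Q hQ (((mem_homogeneousSubmodule _ _).mp Q.2).totalDegree_le) ⟨W, h1⟩
    rw [hQ0, map_zero] at h1
    have hW0 : (W : Po (M + 1 + 1) k) = 0 := (mul_eq_zero.mp h1.symm).resolve_left hS0
    exact Prod.ext (Subtype.ext hQ0) (Subtype.ext hW0)
  have hdim := LinearMap.finrank_le_finrank_of_injective hinj
  rw [Module.finrank_prod, hd1, hd2, hd3] at hdim
  have h1 := choose_step (δ * s - r + (M + 1)) M r
  rw [show δ * s - r + (M + 1) + r = δ * s + (M + 1) by omega] at h1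
  have h2 : (s + (M + 1)).choose (M + 1) ≤ r * (δ * s + (M + 1) - 1).choose M := by omega
  have h3 : (s + 1) ^ (M + 1) ≤ (M + 1).factorial * (s + (M + 1)).choose (M + 1) := by
    rw [← Nat.ascFactorial_eq_factorial_mul_choose]
    exact Nat.pow_succ_le_ascFactorial _ _
  have h4 : M.factorial * (δ * s + (M + 1) - 1).choose M ≤ (s * (δ + (M + 1))) ^ M := by
    rw [← Nat.descFactorial_eq_factorial_mul_choose]
    refine (Nat.descFactorial_le_pow _ _).trans (Nat.pow_le_pow_left ?_ _)
    have h5 : 1 ≤ s := le_trans hr hs1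
    have h6 : M + 1 ≤ s * (M + 1) := Nat.le_mul_of_pos_left _ h5
    have h7 : s * (δ + (M + 1)) = δ * s + s * (M + 1) := by ring
    rw [h7]
    omega
  have h5 : (s + 1) ^ (M + 1) ≤ s ^ (M + 1) := by
    calc (s + 1) ^ (M + 1) ≤ (M + 1).factorial * (s + (M + 1)).choose (M + 1) := h3
      _ ≤ (M + 1).factorial * (r * (δ * s + (M + 1) - 1).choose M) := Nat.mul_le_mul_left _ h2
      _ = (M + 1) * r * (M.factorial * (δ * s + (M + 1) - 1).choose M) := by
          rw [Nat.factorial_succ]
          ring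
      _ ≤ (M + 1) * r * (s * (δ + (M + 1))) ^ M := Nat.mul_le_mul_left _ h4
      _ = s ^ M * ((M + 1) * (δ + (M + 1)) ^ M * r) := by
          rw [mul_pow]
          ring
      _ ≤ s ^ M * s := by
          apply Nat.mul_le_mul_left
          rw [hs, hm, Nat.add_sub_cancel]
          apply Nat.mul_le_mul_right
          omega
      _ = s ^ (M + 1) := (pow_succ s M).symm
  exact absurd h5 (not_le.mpr (Nat.pow_lt_pow_left (Nat.lt_succ_self s) (by omega)))

/-- the condition for the iterates of a reduced representative -/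
theorem KH_of_reduced {N : ℕ} {k : Type} [Field k] {F G : Tup (N + 1) k} {h : Po (N + 1) k}
    {δ n : ℕ} (hG : ∀ i, (G i).IsHomogeneous δ)
    (hit : ∀ i, it F n i = h * G i) (j : ℕ) :
    ∃ hj : Po (N + 1) k, ∀ i, it F (n * j) i = hj * it G j i := by
  induction j with
  | zero => exact ⟨1, fun i => by rw [Nat.mul_zero, it_zero, it_zero, one_mul]⟩
  | succ j ih =>
    obtain ⟨hj, hhj⟩ := ih
    have hGj := it_hom hG j
    refine ⟨h ^ (δ ^ j) * aeval (it F n) hj, fun i => ?_⟩
    have h1 : it F (n * (j + 1)) = comp (it F (n * j)) (it F n) := by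
      rw [← it_add, Nat.mul_succ]
    rw [h1]
    change aeval (it F n) (it F (n * j) i) = _
    rw [hhj i, map_mul]
    have h2 : it F n = fun i => h * G i := funext hit
    have h3 : aeval (it F n) (it G j i) = h ^ (δ ^ j) * aeval G (it G j i) := by
      rw [h2, aeval_mul_of_hom (hGj i)]
    have h4 : aeval G (it G j i) = it G (j + 1) i := by
      rw [it_succ']
      rfl
    rw [h3, h4]
    ring

/-- the degree condition implies the condition on hypersurfaces -/
theorem exists_KH {N : ℕ} {k : Type} [Field k] {F G : Tup (N + 1) k} {h : Po (N + 1) k}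
    {δ n e : ℕ} (hN : 1 ≤ N) (hn : 1 ≤ n) (hδ : 1 ≤ δ) (hG : ∀ i, (G i).IsHomogeneous δ)
    (hit : ∀ i, it F n i = h * G i) (hdeg : δ ^ (N - 1) < e ^ n) :
    ∃ n' m : ℕ, 1 ≤ n' ∧ m < e ^ n' ∧ KH (it F n') m := by
  obtain ⟨i, hi1, hi⟩ := num_contra (A := e ^ n) (m := δ ^ (N - 1)) (k := 1)
    (r := N * (N + 1) ^ (N - 1) + 1) le_rfl hdeg
  rw [one_mul] at hi
  have hδi : 1 ≤ δ ^ i := Nat.one_le_pow _ _ hδ
  have hGi := it_hom hG i
  have hK := dimH (it G i) (δ ^ i) hN hδi hGi
  obtain ⟨hj, hhj⟩ := KH_of_reduced hG hit i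
  refine ⟨n * i, N * (δ ^ i + N) ^ (N - 1) + 1, Nat.mul_pos hn hi1, ?_, ?_⟩
  · rw [pow_mul]
    refine lt_of_le_of_lt ?_ hi
    have h1 : (δ ^ i + N) ^ (N - 1) ≤ (N + 1) ^ (N - 1) * (δ ^ (N - 1)) ^ i := by
      calc (δ ^ i + N) ^ (N - 1) ≤ ((N + 1) * δ ^ i) ^ (N - 1) := by
            apply Nat.pow_le_pow_left
            nlinarith
        _ = (N + 1) ^ (N - 1) * (δ ^ (N - 1)) ^ i := by
            rw [mul_pow, ← pow_mul, ← pow_mul, mul_comm i]
    have h2 : 1 ≤ (δ ^ (N - 1)) ^ i := Nat.one_le_pow _ _ (Nat.one_le_pow _ _ hδ)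
    calc N * (δ ^ i + N) ^ (N - 1) + 1
        ≤ N * ((N + 1) ^ (N - 1) * (δ ^ (N - 1)) ^ i) + (δ ^ (N - 1)) ^ i := by
          have := Nat.mul_le_mul_left N h1
          omega
      _ = (N * (N + 1) ^ (N - 1) + 1) * (δ ^ (N - 1)) ^ i := by ring
  · intro r S hS hS0
    obtain ⟨Q, hQ, hQd, hQS⟩ := hK r S hS hS0
    set s := Q.totalDegree with hs
    have hQs : homogeneousComponent s Q ≠ 0 := Pool.Agent.H55.HIT.hc_top_ne hQ
    refine ⟨homogeneousComponent s Q, hQs,
      ((homogeneousComponent_isHomogeneous s Q).totalDegree_le).trans hQd, ?_⟩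
    have h1 : it F (n * i) = fun l => hj * it G i l := funext hhj
    rw [h1, aeval_mul_of_hom (homogeneousComponent_isHomogeneous s Q)]
    exact (dvd_component hδi hGi hS hQS s).mul_left _

end Pool.Agent.H8.BIG
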