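import Pool.Agent.H8.BIG.DMH

/-!
# Rational maps of large topological degree: assembly over arbitrary fields
-/

open MvPolynomial
open Pool.Agent.H12.ZD (pmap v O Res DenseOrbit NoInv)
open Pool.Agent.H18.HIT

namespace Pool.Agent.H8.BIG

section maps

variable {N : ℕ} {R S : Type} [CommRing R] [CommRing S] (ψ : R →+* S)

theorem mp_comp (f g : Tup N R) : mp ψ (comp f g) = comp (mp ψ f) (mp ψ g) := by
  funext i
  change map ψ (aeval g (f i)) = aeval (fun j => map ψ (g j)) (map ψ (f i))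
  induction f i using MvPolynomial.induction_on with
  | C a =>
    rw [map_C, algHom_C, algHom_C, algebraMap_eq, algebraMap_eq, map_C]
  | add p q hp hq => rw [map_add, map_add, map_add, hp, hq, map_add]
  | mul_X p j hp => rw [map_mul, map_mul, map_mul, hp, map_X, aeval_X, map_mul, aeval_X]

theorem mp_it (f : Tup N R) (n : ℕ) : mp ψ (it f n) = it (mp ψ f) n := by
  induction n with
  | zero =>
    rw [it_zero, it_zero]
    funext i
    exact map_X ψ i
  | succ n ih => rw [it_succ, it_succ, mp_comp, ih]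

end maps

/-- large topological degree, polynomial maps over an arbitrary algebraically closed field -/
theorem thmKA (hBA : T_BA) (hKSP : T_KSP) (hSP2 : T_SP2) (N : ℕ) (k : Type) [Field k]
    [IsAlgClosed k] [CharZero k] (f : Tup N k) (b : Po N k) (e n m : ℕ) (hf : Cov f e)
    (hn : 1 ≤ n) (hK : KK (it f n) m) (hm : m < e ^ n) (hb : b ≠ 0) :
    ∃ x : Fin N → k, (∀ j, eval ((pmap f)^[j] x) b ≠ 0) ∧ DenseOrbit f x := by
  have : Infinite k := IsAlgClosed.instInfinite
  have he : 1 ≤ e := by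
    rcases Nat.eq_zero_or_pos e with h | h
    · rw [h, zero_pow (by omega)] at hm
      exact absurd hm (Nat.not_lt_zero _)
    · exact h
  have hinj := hf.injective he
  obtain ⟨θ, Φ, Δ, R, hprim⟩ := All.pel N k f hinj
  have hle := All.cvp N k f e θ Φ Δ R hinj hf hprim
  obtain ⟨ρ, D, hρ, hdat⟩ := All.cvi N k f θ Φ Δ R hinj hprim
  obtain ⟨A, φ, fA, b', hfA, hb', ⟨Φ', θ', ρ', Δ', R', hdat', hρ', hΔ'⟩, hlift⟩ :=
    hSP2 N k f b Φ.natDegree D Φ θ ρ Δ R hdat hρ hprim.ne hb
  have hg : Cov (mp φ fA) e := (All.cvc N Qb (mp φ fA) _ D Φ' θ' ρ' Δ' R' hdat' hρ' hΔ').mono hle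
  have hKg : KK (it (mp φ fA) n) m := by
    intro S hS
    have h1 := hKSP N A k Qb A.subtype φ (it fA n) S.support (m * S.totalDegree)
      A.subtype_injective (by
        intro S' hS' hsupp
        obtain ⟨Q, hQ, hQd, hQS⟩ := hK S' hS'
        refine ⟨Q, hQ, hQd.trans (Nat.mul_le_mul_left _ ?_), ?_⟩
        · rw [totalDegree, totalDegree]
          exact Finset.sup_mono hsupp
        · rw [mp_it, hfA]
          exact hQS) S hS (Finset.Subset.refl _)
    rw [mp_it] at h1
    exact h1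
  obtain ⟨x, hx, hdense⟩ := hBA N (mp φ fA) b' e n m hg hn hKg hm hb'
  exact hlift x hx hdense

/-- large topological degree, homogeneous maps over an arbitrary algebraically closed field -/
theorem thmKH (hBP : T_BP) (hKSP : T_KSP) (hSP2 : T_SP2) (N : ℕ) (k : Type) [Field k]
    [IsAlgClosed k] [CharZero k] (F : Tup (N + 1) k) (b : Po (N + 1) k) (d e n m : ℕ)
    (hd : 2 ≤ d) (hF : ∀ i, (F i).IsHomogeneous d) (hcov : Cov F (d * e))
    (hn : 1 ≤ n) (hK : KH (it F n) m) (hm : m < e ^ n) (hb : b ≠ 0) :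
    ∃ x : Fin (N + 1) → k, (∀ j, eval ((pmap F)^[j] x) b ≠ 0) ∧ DenseOrbit F x := by
  have : Infinite k := IsAlgClosed.instInfinite
  have he : 1 ≤ e := by
    rcases Nat.eq_zero_or_pos e with h | h
    · rw [h, zero_pow (by omega)] at hm
      exact absurd hm (Nat.not_lt_zero _)
    · exact h
  have hinj := hcov.injective (Nat.mul_pos (by omega) he)
  obtain ⟨θ, Φ, Δ, R, hprim⟩ := All.pel (N + 1) k F hinj
  have hle := All.cvp (N + 1) k F (d * e) θ Φ Δ R hinj hcov hprim
  obtain ⟨ρ, D, hρ, hdat⟩ := All.cvi (N + 1) k F θ Φ Δ R hinj hprim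
  obtain ⟨A, φ, fA, b', hfA, hb', ⟨Φ', θ', ρ', Δ', R', hdat', hρ', hΔ'⟩, hlift⟩ :=
    hSP2 (N + 1) k F b Φ.natDegree D Φ θ ρ Δ R hdat hρ hprim.ne hb
  have hg : Cov (mp φ fA) (d * e) :=
    (All.cvc (N + 1) Qb (mp φ fA) _ D Φ' θ' ρ' Δ' R' hdat' hρ' hΔ').mono hle
  have hgh : ∀ i, (mp φ fA i).IsHomogeneous d := by
    intro i
    apply IsHomogeneous.map
    have h1 : map A.subtype (fA i) = F i := congrFun hfA i
    apply IsHomogeneous.of_map A.subtype_injective
    rw [h1]
    exact hF i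
  have hKg : KH (it (mp φ fA) n) m := by
    intro r S hSr hS
    have h1 := hKSP (N + 1) A k Qb A.subtype φ (it fA n) S.support (m * r)
      A.subtype_injective (by
        intro S' hS' hsupp
        obtain ⟨Q, hQ, hQd, hQS⟩ := hK r S' (by
          intro c hc
          exact hSr (mem_support_iff.mp (hsupp (mem_support_iff.mpr hc)))) hS'
        refine ⟨Q, hQ, hQd, ?_⟩
        rw [mp_it, hfA]
        exact hQS) S hS (Finset.Subset.refl _)
    rw [mp_it] at h1
    exact h1
  obtain ⟨x, hx, hdense⟩ := hBP N (mp φ fA) b' d e n m hd hgh hg hn hKg hm hb'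
  exact hlift x hx hdense

/-- large topological degree, rational self-maps of projective space -/
theorem thmKP (hBP : T_BP) (hKSP : T_KSP) (hSP2 : T_SP2) (N : ℕ) (k : Type) [Field k]
    [IsAlgClosed k] [CharZero k] (F : Tup (N + 1) k) (b : Po (N + 1) k) (d e n m : ℕ)
    (hd : 1 ≤ d) (hF : ∀ i, (F i).IsHomogeneous d) (hcov : PCov F e)
    (hn : 1 ≤ n) (hK : KH (it F n) m) (hm : m < e ^ n) (hb : b ≠ 0) :
    ∃ x : Fin (N + 1) → k, (∀ j, eval ((pmap F)^[j] x) b ≠ 0) ∧ (∀ j, (pmap F)^[j] x ≠ 0) ∧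
      DenseOrbit F x := by
  have : Infinite k := IsAlgClosed.instInfinite
  have hcF := All.pcv (N + 1) k F d e (by omega) hd hF hcov
  have hm1 : 1 ≤ m := by
    by_contra h
    have h0 : m = 0 := by omega
    subst h0
    obtain ⟨Q, hQ, hQd, hQS⟩ := hK 1 (X 0) (isHomogeneous_X k 0) (X_ne_zero 0)
    rw [zero_mul] at hQd
    have h1 : Q = C (coeff 0 Q) := totalDegree_eq_zero_iff_eq_C.mp (Nat.le_zero.mp hQd)
    have hc : coeff 0 Q ≠ 0 := by
      intro h
      apply hQ
      rw [h1, h, C_0]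
    rw [h1, algHom_C, algebraMap_eq] at hQS
    have h2 : IsUnit (X 0 : Po (N + 1) k) :=
      isUnit_of_dvd_unit hQS ((isUnit_iff_ne_zero.mpr hc).map C)
    have h3 := MvPolynomial.isUnit_iff_totalDegree_of_isReduced.mp h2
    rw [totalDegree_X] at h3
    exact one_ne_zero h3.2
  have he2 : 2 ≤ e := by
    by_contra h
    have h1 : e ^ n ≤ 1 := by
      calc e ^ n ≤ 1 ^ n := Nat.pow_le_pow_left (by omega) n
        _ = 1 := one_pow n
    omega
  have hd2 : 2 ≤ d := by
    by_contra h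
    have hd1 : d = 1 := by omega
    subst hd1
    exact not_cov_linear hF (by rw [one_mul]; exact he2) hcF
  obtain ⟨x, hx, hdense⟩ := thmKH hBP hKSP hSP2 N k F (b * X 0) d e n m hd2 hF hcF hn hK hm
    (mul_ne_zero hb (X_ne_zero 0))
  refine ⟨x, fun j => ?_, fun j h0 => ?_, hdense⟩
  · have h1 := hx j
    rw [map_mul] at h1
    exact left_ne_zero_of_mul h1
  · have h1 := hx j
    rw [map_mul, eval_X, h0] at h1
    exact right_ne_zero_of_mul h1 rfl

/-- the version with the degree of an iterate -/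
theorem thmKD (hBP : T_BP) (hKSP : T_KSP) (hSP2 : T_SP2) (N : ℕ) (k : Type) [Field k]
    [IsAlgClosed k] [CharZero k] (F G : Tup (N + 1) k) (h b : Po (N + 1) k) (d e n δ : ℕ)
    (hN : 1 ≤ N) (hd : 1 ≤ d) (hF : ∀ i, (F i).IsHomogeneous d) (hcov : PCov F e)
    (hn : 1 ≤ n) (hG : ∀ i, (G i).IsHomogeneous δ) (hit : ∀ i, it F n i = h * G i)
    (hdeg : δ ^ (N - 1) < e ^ n) (hb : b ≠ 0) :
    ∃ x : Fin (N + 1) → k, (∀ j, eval ((pmap F)^[j] x) b ≠ 0) ∧ (∀ j, (pmap F)^[j] x ≠ 0) ∧
      DenseOrbit F x := by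
  have : Infinite k := IsAlgClosed.instInfinite
  have he : 1 ≤ e := by
    rcases Nat.eq_zero_or_pos e with h | h
    · rw [h, zero_pow (by omega)] at hdeg
      exact absurd hdeg (Nat.not_lt_zero _)
    · exact h
  have hcF := All.pcv (N + 1) k F d e (by omega) hd hF hcov
  have hinj := hcF.injective (Nat.mul_pos hd he)
  have hδ := one_le_of_reduced hN hG hit hinj
  obtain ⟨n', m, hn', hm, hK⟩ := exists_KH hN hn hδ hG hit hdeg
  exact thmKP hBP hKSP hSP2 N k F b d e n' m hd hF hcov hn' hK hm hb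

end Pool.Agent.H8.BIG
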